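import Pool.Agent.Q276.PL.All

/-!
# Fundamental units of almost all real quadratic fields

For every `δ` between `0` and `1/2`, all but `O(N exp(-(log N)^(δ/8)))` of the positive fundamental
discriminants `D ≤ N` have `ε_D > exp((log N)^(3/2 - δ))`; in particular almost every positive
fundamental discriminant satisfies `ε_D > exp((log D)^(3/2 - δ))`, so `ε_D > D^A` for every `A`.

Proof. (1) For squarefree `d` in an interval of length `D^(1/(8m))`, `m = 2(2σ+1)^2`, with a fundamental
solution `(x, y)` of `x^2 - d y^2 = 1` with `V ≤ y < 2V ≤ D^σ`, all determinants of size `2m` in the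
functions `x τ^j, y τ^j`, `τ = d - d_0`, `j < m`, vanish, since `x / y` is very close to `√d`. So there
are polynomials `A, B` with `x A(τ) + y B(τ) = 0`, and `B(τ)^2 - d A(τ)^2` is a square. (2) If the
polynomial `B^2 - (d_0 + X) A^2` is not a square, a second (p-adic) determinant argument bounds the
number of the `τ` by the square root of the length. (3) If it is a square, the same holds for the
polynomials of the relation of `x - 1` (or `x + 1`) and `y`, which come from `(x - 1)(x + 1) = d y^2`,
with `x - 1 = e r^2`, `x + 1 = e' s^2`, `e e' = d` (up to a factor `2`): either `e` or `e'` is small, and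
`n (Q^2 - (d_0 + X) P^2)` is not a square for a non-square `n`, or `d` has a large common divisor with a
fixed number.

Authors: helper276 with helper65, helper94, helper109, helper121, helper144, helper151, helper164,
helper182, helper205, helper208, helper210, helper211, helper247, helper288; part (1), (2) of the proof
after the plan and the statements `Pool.Agent.W223.PL` of the starting files.
-/

set_option autoImplicit false

namespace Pool.Agent.Results.MP_070445_nt.LargeUnits

open Filter

/-- Positive fundamental discriminants (and `1`). -/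
def Fundamental (D : ℕ) : Prop := (D % 4 = 1 ∧ Squarefree D) ∨
  (D % 4 = 0 ∧ ((D / 4) % 4 = 2 ∨ (D / 4) % 4 = 3) ∧ Squarefree (D / 4))

/-- The fundamental unit `ε_D` is at most `B`: there is a unit `(t + u √D) / 2`, `t, u > 0`, at most
`B`. -/
def UnitAtMost (D : ℕ) (B : ℝ) : Prop := ∃ t u : ℕ, 0 < t ∧ 0 < u ∧
  ((t : ℤ) ^ 2 - (D : ℤ) * (u : ℤ) ^ 2 = 4 ∨ (t : ℤ) ^ 2 - (D : ℤ) * (u : ℤ) ^ 2 = -4) ∧
  ((t : ℝ) + (u : ℝ) * √(D : ℝ)) / 2 ≤ B

theorem result (δ : ℝ) (hδ : 0 < δ) (hδ2 : δ < 1 / 2) :
    (∃ M : ℝ, ∀ N : ℕ, 2 ≤ N →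
      ({D : ℕ | 1 ≤ D ∧ D ≤ N ∧ Fundamental D ∧
        UnitAtMost D (Real.exp (Real.log N ^ (3 / 2 - δ)))}.ncard : ℝ) ≤
        M * N * Real.exp (-(Real.log N ^ (δ / 8)))) ∧
    Tendsto (fun N : ℕ => ({D : ℕ | 1 ≤ D ∧ D ≤ N ∧ Fundamental D ∧
        UnitAtMost D (Real.exp (Real.log D ^ (3 / 2 - δ)))}.ncard : ℝ) /
        ({D : ℕ | 1 ≤ D ∧ D ≤ N ∧ Fundamental D}.ncard : ℝ)) atTop (nhds 0) :=
  Pool.Agent.Q276.PL.finU Pool.Agent.Q276.PL.rgb_true δ hδ hδ2

end Pool.Agent.Results.MP_070445_nt.LargeUnits
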