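import Pool.Agent.Q276.PL.AllS

/-!
# Small values of `x² - D y²` for almost all `D`, with a power saving

For every `A` there are `c, c' > 0` such that for all but `O(X^(1-c'))` of the positive integers
`D ≤ X` no integers `x, y` with `1 ≤ y ≤ X^A` and `x² ≠ D y²` have `|x² - D y²| ≤ X^c`; in particular
the orders of discriminant `D` have no unit `> 1` which is at most `X^A`.
-/

set_option autoImplicit false

namespace Pool.Agent.Results.MP_070445_nt.SmallValues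

/-- There is a unit `(t + u √D) / 2`, `t, u > 0`, at most `B`. -/
def UnitAtMost (D : ℤ) (B : ℝ) : Prop := ∃ t u : ℤ, 0 < t ∧ 0 < u ∧
  (t ^ 2 - D * u ^ 2 = 4 ∨ t ^ 2 - D * u ^ 2 = -4) ∧ ((t : ℝ) + (u : ℝ) * √(D : ℝ)) / 2 ≤ B

/-- The form `x² - D y²` has a nonzero value of absolute value at most `H` with `1 ≤ y ≤ Y`. -/
def SmallValue (D : ℤ) (Y H : ℝ) : Prop := ∃ x y : ℤ, 1 ≤ y ∧ (y : ℝ) ≤ Y ∧
  x ^ 2 ≠ D * y ^ 2 ∧ |((x ^ 2 - D * y ^ 2 : ℤ) : ℝ)| ≤ H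

theorem fin_box (X : ℝ) : {D : ℤ | 1 ≤ D ∧ (D : ℝ) ≤ X}.Finite := by
  refine (Set.finite_Icc (1 : ℤ) ⌊X⌋).subset ?_
  rintro D ⟨h1, h2⟩
  exact ⟨h1, Int.le_floor.2 h2⟩

theorem card_box (X : ℝ) (hX : 1 ≤ X) (P : ℤ → Prop) :
    (({D : ℤ | 1 ≤ D ∧ (D : ℝ) ≤ X ∧ P D}).ncard : ℝ) ≤ X := by
  have h1 : {D : ℤ | 1 ≤ D ∧ (D : ℝ) ≤ X ∧ P D} ⊆ Set.Icc (1 : ℤ) ⌊X⌋ := by
    rintro D ⟨h1, h2, -⟩
    exact ⟨h1, Int.le_floor.2 h2⟩
  have h2 := Set.ncard_le_ncard h1 (Set.finite_Icc _ _)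
  have h3 : (Set.Icc (1 : ℤ) ⌊X⌋).ncard = ⌊X⌋.toNat := by
    rw [← Finset.coe_Icc, Set.ncard_coe_finset, Int.card_Icc]
    congr 1
    ring
  rw [h3] at h2
  have h4 : (0 : ℤ) ≤ ⌊X⌋ := Int.floor_nonneg.2 (by linarith)
  have h5 : ((⌊X⌋.toNat : ℕ) : ℝ) = ((⌊X⌋ : ℤ) : ℝ) := by
    have := Int.toNat_of_nonneg h4
    exact_mod_cast congrArg (fun z : ℤ => (z : ℝ)) this
  have h6 : (({D : ℤ | 1 ≤ D ∧ (D : ℝ) ≤ X ∧ P D}).ncard : ℝ) ≤ ((⌊X⌋.toNat : ℕ) : ℝ) := by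
    exact_mod_cast h2
  rw [h5] at h6
  exact h6.trans (Int.floor_le X)

theorem result (A : ℕ) (hA : 1 ≤ A) : ∃ M : ℝ, ∀ X : ℝ, 1 ≤ X →
    ({D : ℤ | 1 ≤ D ∧ (D : ℝ) ≤ X ∧
      SmallValue D (X ^ A) (X ^ (1 / (128 * (4 * (A : ℝ) + 1) ^ 2)))}.ncard : ℝ) ≤
      M * X ^ (1 - 1 / (64 * (4 * (A : ℝ) + 1) ^ 2)) ∧
    ({D : ℤ | 1 ≤ D ∧ (D : ℝ) ≤ X ∧ UnitAtMost D (X ^ A)}.ncard : ℝ) ≤
      M * X ^ (1 - 1 / (64 * (4 * (A : ℝ) + 1) ^ 2)) := by
  obtain ⟨M, hM⟩ := Pool.Agent.Q276.PL.pfin_true A hA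
  obtain ⟨s, hs⟩ : ∃ s : ℝ, s = (4 * (A : ℝ) + 1) ^ 2 := ⟨_, rfl⟩
  have hA1 : (1 : ℝ) ≤ A := by exact_mod_cast hA
  have hs1 : 1 ≤ s := by
    rw [hs]
    nlinarith
  have hM' : ∀ X : ℝ, 1 ≤ X → ({D : ℤ | 1 ≤ D ∧ (D : ℝ) ≤ X ∧
      SmallValue D (X ^ A) (X ^ (1 / (128 * (4 * (A : ℝ) + 1) ^ 2)))}.ncard : ℝ) ≤
      M * X ^ (1 - 1 / (64 * (4 * (A : ℝ) + 1) ^ 2)) := fun X hX => hM X hX
  refine ⟨|M| + 3 + (4 : ℝ) ^ (128 * s), fun X hX => ?_⟩
  have hX0 : 0 < X := by linarith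
  have h1 := hM' X hX
  rw [← hs] at h1 ⊢
  have hexp : 0 ≤ 1 - 1 / (64 * s) := by
    have : 1 / (64 * s) ≤ 1 := by
      rw [div_le_one (by positivity)]
      linarith
    linarith
  have hp1 : 1 ≤ X ^ (1 - 1 / (64 * s)) := Real.one_le_rpow hX hexp
  have h4p : 0 ≤ (4 : ℝ) ^ (128 * s) := Real.rpow_nonneg (by norm_num) _
  constructor
  · refine h1.trans (mul_le_mul_of_nonneg_right ?_ (by linarith))
    have := le_abs_self M
    linarith
  · by_cases hX4 : (4 : ℝ) ^ (128 * s) ≤ X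
    · have h4 : 4 ≤ X ^ (1 / (128 * s)) := by
        have h5 := Real.rpow_le_rpow (Real.rpow_nonneg (by norm_num) _) hX4
          (by positivity : 0 ≤ 1 / (128 * s))
        rw [← Real.rpow_mul (by norm_num)] at h5
        have h6 : 128 * s * (1 / (128 * s)) = 1 := by
          field_simp
        rwa [h6, Real.rpow_one] at h5
      have hsub : {D : ℤ | 1 ≤ D ∧ (D : ℝ) ≤ X ∧ UnitAtMost D (X ^ A)} ⊆
          {D : ℤ | 1 ≤ D ∧ (D : ℝ) ≤ X ∧ SmallValue D (X ^ A) (X ^ (1 / (128 * s)))} ∪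
            ((({1, 2, 3} : Finset ℤ)) : Set ℤ) := by
        rintro D ⟨hD1, hDX, t, u, ht, hu, hval, hle⟩
        by_cases hD4 : 4 ≤ D
        · left
          refine ⟨hD1, hDX, t, u, hu, ?_, ?_, ?_⟩
          · have hD4' : (4 : ℝ) ≤ D := by exact_mod_cast hD4
            have h7 : (2 : ℝ) ≤ √(D : ℝ) := by
              apply Real.le_sqrt_of_sq_le
              linarith
            have ht' : (0 : ℝ) < t := by exact_mod_cast ht
            have hu' : (0 : ℝ) < u := by exact_mod_cast hu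
            nlinarith
          · intro h
            rcases hval with h8 | h8
            · rw [h] at h8
              simp at h8
            · rw [h] at h8
              simp at h8
          · have h9 : |((t ^ 2 - D * u ^ 2 : ℤ) : ℝ)| = 4 := by
              rcases hval with h8 | h8
              · rw [h8]
                norm_num
              · rw [h8]
                norm_num
            rw [h9]
            exact h4
        · right
          simp only [Finset.coe_insert, Finset.coe_singleton, Set.mem_insert_iff,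
            Set.mem_singleton_iff]
          omega
      have hfin : ({D : ℤ | 1 ≤ D ∧ (D : ℝ) ≤ X ∧
          SmallValue D (X ^ A) (X ^ (1 / (128 * s)))}).Finite :=
        (fin_box X).subset fun D hD => ⟨hD.1, hD.2.1⟩
      have h10 := Set.ncard_le_ncard hsub (hfin.union (Finset.finite_toSet _))
      have h11 := h10.trans (Set.ncard_union_le _ _)
      have h12 : (((({1, 2, 3} : Finset ℤ)) : Set ℤ)).ncard ≤ 3 := by
        rw [Set.ncard_coe_finset]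
        exact Finset.card_le_three
      have h13 : ({D : ℤ | 1 ≤ D ∧ (D : ℝ) ≤ X ∧ UnitAtMost D (X ^ A)}.ncard : ℝ) ≤
          ({D : ℤ | 1 ≤ D ∧ (D : ℝ) ≤ X ∧
            SmallValue D (X ^ A) (X ^ (1 / (128 * s)))}.ncard : ℝ) + 3 := by
        exact_mod_cast h11.trans (Nat.add_le_add_left h12 _)
      have h14 : M * X ^ (1 - 1 / (64 * s)) ≤ |M| * X ^ (1 - 1 / (64 * s)) :=
        mul_le_mul_of_nonneg_right (le_abs_self M) (by linarith)
      nlinarith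
    · have h15 := card_box X hX (fun D => UnitAtMost D (X ^ A))
      have h16 : X ≤ (4 : ℝ) ^ (128 * s) := (not_le.1 hX4).le
      have h17 : 0 ≤ |M| := abs_nonneg M
      nlinarith

end Pool.Agent.Results.MP_070445_nt.SmallValues
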